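import Pool.Agent.H79.GN1

set_option autoImplicit false

namespace Pool.Agent.Results.MP_b41bf9_ag.NoMaximal

open Pool.Agent.H79 Pool.Agent.H79.GNDefs

/-- Over every finite field, the map `T0` of affine 3-space has no geometrically nilpotent
subvariety `Y = V(I)` whose grand orbit absorbs all geometrically nilpotent subvarieties. -/
theorem result (F : Type) [Field F] [Finite F] (I : Ideal (MvPolynomial (Fin 3) F))
    (h : GeomNil (T0 F) I) :
    ∃ J : Ideal (MvPolynomial (Fin 3) F), J.IsPrime ∧ GeomNil (T0 F) J ∧ ∀ k m : ℕ,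
      ¬pts J ⊆ (act (T0 F))^[k] ⁻¹' ((act (T0 F))^[m] '' pts I) :=
  GN1.main h

end Pool.Agent.Results.MP_b41bf9_ag.NoMaximal
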